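import Mathlib
import Pool.Agent.Lib.MP_7f2f72_gt.Final

/-!
Klamkin's question on perimeter-bisecting points (affirmative answer).

If `C = frontier K` is a convex closed curve in the Euclidean plane (the boundary of a compact convex
set `K` with nonempty interior) and `O` is a point such that every line through `O` bisects the
perimeter of `C`, in the sense that the two open half-planes bounded by the line contain parts of `C`
of equal total length (one-dimensional Hausdorff measure, which is arc length for such curves), then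
`C` is centrally symmetric with respect to `O`.

A line through `O` is given by a nonzero normal vector `v`; its two open half-planes are
`0 < ⟨v, x - O⟩` and `⟨v, x - O⟩ < 0`.
-/

open MeasureTheory Set

namespace Pool.Agent.Results.MP_7f2f72_gt.KlamkinBisection

theorem result (K : Set (EuclideanSpace ℝ (Fin 2))) (hK : Convex ℝ K) (hKc : IsCompact K)
    (hKi : (interior K).Nonempty) (O : EuclideanSpace ℝ (Fin 2))
    (hbis : ∀ v : EuclideanSpace ℝ (Fin 2), v ≠ 0 →
      Measure.hausdorffMeasure 1 (frontier K ∩ {x | 0 < inner ℝ v (x - O)}) =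
      Measure.hausdorffMeasure 1 (frontier K ∩ {x | inner ℝ v (x - O) < 0})) :
    (fun x => (2 : ℝ) • O - x) '' frontier K = frontier K := by
  set e : EuclideanSpace ℝ (Fin 2) ≃ᵢ EuclideanSpace ℝ (Fin 2) := IsometryEquiv.subRight O with he
  have hea : ∀ x, e x = x - O := fun x => rfl
  set K' : Set (EuclideanSpace ℝ (Fin 2)) := e '' K with hK'
  have hfr : frontier K' = e '' frontier K := (e.toHomeomorph.image_frontier K).symm
  have hconv : Convex ℝ K' := by
    have : K' = (fun x => -O + x) '' K := by
      rw [hK']; apply image_congr; intro x _; rw [hea, sub_eq_add_neg, add_comm]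
    rw [this]
    exact hK.translate (-O)
  have hcomp : IsCompact K' := hKc.image e.continuous
  have hint : (interior K').Nonempty := by
    have : interior K' = e '' interior K := (e.toHomeomorph.image_interior K).symm
    rw [this]
    exact hKi.image _
  have hbis' : ∀ n : EuclideanSpace ℝ (Fin 2), n ≠ 0 →
      Measure.hausdorffMeasure 1 (frontier K' ∩ {x | 0 < inner ℝ n x}) =
      Measure.hausdorffMeasure 1 (frontier K' ∩ {x | inner ℝ n x < 0}) := by
    intro n hn
    have e1 : frontier K' ∩ {x | 0 < inner ℝ n x} =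
        e '' (frontier K ∩ {x | 0 < inner ℝ n (x - O)}) := by
      rw [hfr]
      ext z; constructor
      · rintro ⟨⟨x, hx, rfl⟩, hz⟩; exact ⟨x, ⟨hx, hz⟩, rfl⟩
      · rintro ⟨x, ⟨hx, hz⟩, rfl⟩; exact ⟨⟨x, hx, rfl⟩, hz⟩
    have e2 : frontier K' ∩ {x | inner ℝ n x < 0} =
        e '' (frontier K ∩ {x | inner ℝ n (x - O) < 0}) := by
      rw [hfr]
      ext z; constructor
      · rintro ⟨⟨x, hx, rfl⟩, hz⟩; exact ⟨x, ⟨hx, hz⟩, rfl⟩
      · rintro ⟨x, ⟨hx, hz⟩, rfl⟩; exact ⟨⟨x, hx, rfl⟩, hz⟩
    rw [e1, e2, e.hausdorffMeasure_image, e.hausdorffMeasure_image]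
    exact hbis n hn
  have hsym := Pool.Agent.Lib.MP_7f2f72_gt.symm_origin hconv hcomp hint
    Pool.Agent.Lib.MP_7f2f72_gt.exists_frame hbis'
  have hmem : ∀ x, (2 : ℝ) • O - x ∈ frontier K ↔ x ∈ frontier K := by
    intro x
    have k1 : ∀ y, y - O ∈ frontier K' ↔ y ∈ frontier K := by
      intro y
      rw [hfr]
      constructor
      · rintro ⟨z, hz, hzy⟩
        rw [hea] at hzy
        have : z = y := by simpa using hzy
        rwa [← this]
      · intro hy; exact ⟨y, hy, rfl⟩
    rw [← k1, ← k1 x, ← hsym (x - O)]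
    have : (2 : ℝ) • O - x - O = -(x - O) := by rw [two_smul]; abel
    rw [this]
  ext z
  constructor
  · rintro ⟨x, hx, rfl⟩
    exact (hmem x).mpr hx
  · intro hz
    refine ⟨(2 : ℝ) • O - z, (hmem z).mpr hz, ?_⟩
    simp

end Pool.Agent.Results.MP_7f2f72_gt.KlamkinBisection
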